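import Mathlib

set_option autoImplicit false

namespace Pool.Agent.Results.MP_9e9a14_co.Triangle

open Finset

variable {V : Type} [Fintype V] (G : SimpleGraph V) [DecidableRel G.Adj]

/-- w is an edge 3-weighting of G that properly colours the vertices by sums (only the values of
w on edges of G matter). -/
def Proper (w : Sym2 V → ℕ) : Prop :=
  (∀ e ∈ G.edgeSet, w e = 1 ∨ w e = 2 ∨ w e = 3) ∧
    ∀ u v, G.Adj u v → ∑ x ∈ G.neighborFinset u, w s(u, x) ≠ ∑ x ∈ G.neighborFinset v, w s(v, x)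

/-- G is uniquely 3-weight colourable. -/
def Unique3 : Prop :=
  (∃ w, Proper G w) ∧ ∀ w w', Proper G w → Proper G w' →
    ∃ φ : G ≃g G, ∀ u v, G.Adj u v → w' s(φ u, φ v) = w s(u, v)

lemma nb0 : (⊤ : SimpleGraph (Fin 3)).neighborFinset 0 = {1, 2} := by decide
lemma nb1 : (⊤ : SimpleGraph (Fin 3)).neighborFinset 1 = {0, 2} := by decide
lemma nb2 : (⊤ : SimpleGraph (Fin 3)).neighborFinset 2 = {0, 1} := by decide

lemma facts {w : Sym2 (Fin 3) → ℕ} (h : Proper ⊤ w) :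
    (w s(0, 1) = 1 ∨ w s(0, 1) = 2 ∨ w s(0, 1) = 3) ∧
    (w s(0, 2) = 1 ∨ w s(0, 2) = 2 ∨ w s(0, 2) = 3) ∧
    (w s(1, 2) = 1 ∨ w s(1, 2) = 2 ∨ w s(1, 2) = 3) ∧
    w s(0, 1) ≠ w s(0, 2) ∧ w s(0, 1) ≠ w s(1, 2) ∧ w s(0, 2) ≠ w s(1, 2) := by
  have a := h.2 0 1 (by decide)
  have b := h.2 0 2 (by decide)
  have c := h.2 1 2 (by decide)
  rw [nb0, nb1, sum_pair (by decide), sum_pair (by decide)] at a
  rw [nb0, nb2, sum_pair (by decide), sum_pair (by decide)] at b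
  rw [nb1, nb2, sum_pair (by decide), sum_pair (by decide)] at c
  rw [Sym2.eq_swap (a := 1) (b := 0)] at a c
  rw [Sym2.eq_swap (a := 2) (b := 0), Sym2.eq_swap (a := 2) (b := 1)] at b c
  refine ⟨h.1 _ (by simp), h.1 _ (by simp), h.1 _ (by simp), ?_, ?_, ?_⟩ <;> omega

lemma build {w w' : Sym2 (Fin 3) → ℕ} (p : Equiv.Perm (Fin 3))
    (h1 : w' s(p 0, p 1) = w s(0, 1)) (h2 : w' s(p 0, p 2) = w s(0, 2))
    (h3 : w' s(p 1, p 2) = w s(1, 2)) :
    ∃ φ : (⊤ : SimpleGraph (Fin 3)) ≃g (⊤ : SimpleGraph (Fin 3)),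
      ∀ u v, (⊤ : SimpleGraph (Fin 3)).Adj u v → w' s(φ u, φ v) = w s(u, v) := by
  refine ⟨SimpleGraph.Iso.completeGraph p, fun u v huv => ?_⟩
  change w' s(p u, p v) = w s(u, v)
  fin_cases u <;> fin_cases v
  · exact absurd rfl huv
  · exact h1
  · exact h2
  · rw [Sym2.eq_swap, Sym2.eq_swap (a := _) (b := _)]
    exact (congrArg w' Sym2.eq_swap).trans (h1.trans (congrArg w Sym2.eq_swap))
  · exact absurd rfl huv
  · exact h3
  · exact (congrArg w' Sym2.eq_swap).trans (h2.trans (congrArg w Sym2.eq_swap))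
  · exact (congrArg w' Sym2.eq_swap).trans (h3.trans (congrArg w Sym2.eq_swap))
  · exact absurd rfl huv

/-- The triangle has an edge and is uniquely 3-weight colourable. -/
theorem result : (⊤ : SimpleGraph (Fin 3)).edgeSet.Nonempty ∧
    Unique3 (⊤ : SimpleGraph (Fin 3)) := by
  refine ⟨⟨s(0, 1), by simp⟩, ⟨Sym2.lift ⟨fun a b => a.val + b.val, fun a b => add_comm _ _⟩,
    by decide, by decide⟩, fun w w' h h' => ?_⟩
  obtain ⟨a1, a2, a3, a4, a5, a6⟩ := facts h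
  obtain ⟨b1, b2, b3, b4, b5, b6⟩ := facts h'
  have s10 : w' s(1, 0) = w' s(0, 1) := congrArg w' Sym2.eq_swap
  have s20 : w' s(2, 0) = w' s(0, 2) := congrArg w' Sym2.eq_swap
  have s21 : w' s(2, 1) = w' s(1, 2) := congrArg w' Sym2.eq_swap
  by_cases c1 : w' s(0, 1) = w s(0, 1)
  · by_cases c2 : w' s(0, 2) = w s(0, 2)
    · exact build 1 c1 c2 (show w' s(1, 2) = _ by omega)
    · exact build (Equiv.swap 0 1) (show w' s(1, 0) = _ by omega) (show w' s(1, 2) = _ by omega)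
        (show w' s(0, 2) = _ by omega)
  by_cases c3 : w' s(0, 2) = w s(0, 1)
  · by_cases c2 : w' s(0, 1) = w s(0, 2)
    · exact build (Equiv.swap 1 2) (show w' s(0, 2) = _ by omega) (show w' s(0, 1) = _ by omega)
        (show w' s(2, 1) = _ by omega)
    · exact build (Equiv.swap 1 2 * Equiv.swap 0 1) (show w' s(2, 0) = _ by omega)
        (show w' s(2, 1) = _ by omega) (show w' s(0, 1) = _ by omega)
  · by_cases c2 : w' s(0, 1) = w s(0, 2)
    · exact build (Equiv.swap 0 1 * Equiv.swap 1 2) (show w' s(1, 2) = _ by omega)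
        (show w' s(1, 0) = _ by omega) (show w' s(2, 0) = _ by omega)
    · exact build (Equiv.swap 0 2) (show w' s(2, 1) = _ by omega) (show w' s(2, 0) = _ by omega)
        (show w' s(1, 0) = _ by omega)

end Pool.Agent.Results.MP_9e9a14_co.Triangle
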